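import Pool.Agent.N643.CccDefs
import Pool.Agent.N643.CccM

/-!
# ZF proves that no forcing with ccc₃ collapses the first uncountable cardinal

The definitions are in `Pool.Agent.N643.CccDefs` and the files it names.
-/

namespace Pool.Agent.Results.MP_6e04fb_lc.NoCollapse

open FirstOrder FirstOrder.Language
open Pool.Agent.Helper672.Plain (LSet)
open Pool.Agent.H310Cards (IsOmega)
open Pool.Agent.H635Amen (ZF)
open Pool.Agent.V11246 (IsSuccCard)
open Pool.Agent.N643

universe u

/-- In every model of ZF: let `w₀` be the set of the natural numbers, `w₁` the least uncountable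
cardinal and `P`, with the order `r`, a forcing that satisfies ccc₃. Then no condition `p` forces
that some set, named by `F`, is a surjective function from `w₀` to `w₁`. -/
theorem _root_.Pool.Agent.Results.MP_6e04fb_lc.NoCollapse.result :
    ∀ (M : Type u) [LSet.Structure M], ZF M → ∀ w₀ w₁ r P : M,
      IsOmega w₀ → IsSuccCard w₁ w₀ → IsForcing r P → IsCCC₃ r P w₀ →
        ¬ ∃ p F, ForcesSurj r P p F w₀ w₁ := by
  rintro M _ hM w₀ w₁ r P h₀ h₁ hP hc ⟨p, F, hF⟩
  exact Pool.Agent.Helper672.ZFA.N643.ccc_main (hZ := hM) h₀ h₁ hP hc hF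

end Pool.Agent.Results.MP_6e04fb_lc.NoCollapse
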